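import Pool.Agent.MP_c69980_ag.H4.SpecC
import Pool.Agent.MP_c69980_ag.H60.Disc2

/-!
Approximate uniformisation of a punctured disc by the square-root iteration.
-/

set_option autoImplicit false

noncomputable section

namespace Pool.Agent.MP_c69980_ag.H87

open Metric Set ComplexConjugate

/-- Disc automorphism. -/
def M (c w : ℂ) : ℂ := (w + c) / (1 + conj c * w)

variable {c w : ℂ}

lemma den_ne (hc : ‖c‖ < 1) (hw : ‖w‖ < 1) : 1 + conj c * w ≠ 0 := by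
  intro h
  have h1 : conj c * w = -1 := by linear_combination h
  have h2 := congrArg norm h1
  rw [norm_mul, Complex.norm_conj, norm_neg, norm_one] at h2
  nlinarith [norm_nonneg c, norm_nonneg w]

lemma M_lt (hc : ‖c‖ < 1) (hw : ‖w‖ < 1) : ‖M c w‖ < 1 := by
  have hd := den_ne hc hw
  rw [M, norm_div, div_lt_one (norm_pos_iff.2 hd)]
  apply lt_of_pow_lt_pow_left₀ 2 (norm_nonneg _)
  have h1 : ‖c‖ ^ 2 < 1 := by nlinarith [norm_nonneg c]
  have h2 : ‖w‖ ^ 2 < 1 := by nlinarith [norm_nonneg w]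
  rw [← Complex.normSq_eq_norm_sq] at h1 h2
  rw [← Complex.normSq_eq_norm_sq, ← Complex.normSq_eq_norm_sq]
  simp only [Complex.normSq_apply, Complex.add_re, Complex.add_im, Complex.mul_re, Complex.mul_im,
    Complex.conj_re, Complex.conj_im, Complex.one_re, Complex.one_im] at h1 h2 ⊢
  nlinarith [mul_pos (sub_pos.2 h1) (sub_pos.2 h2)]

lemma one_sub_ne (hc : ‖c‖ < 1) : 1 - conj c * c ≠ 0 := by
  have := den_ne hc (w := -c) (by simpa using hc)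
  intro h; apply this; linear_combination h

lemma M_inv (hc : ‖c‖ < 1) (hw : ‖w‖ < 1) : M (-c) (M c w) = w := by
  have hd := den_ne hc hw
  have h2 : 1 + conj (-c) * M c w ≠ 0 := den_ne (by simpa using hc) (M_lt hc hw)
  rw [M, div_eq_iff h2]
  have h3 : M c w * (1 + conj c * w) = w + c := div_mul_cancel₀ _ hd
  rw [map_neg]
  linear_combination h3

lemma M_inv' (hc : ‖c‖ < 1) (hw : ‖w‖ < 1) : M c (M (-c) w) = w := by
  have := M_inv (c := -c) (by simpa using hc) hw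
  rwa [neg_neg] at this

lemma M_der (hc : ‖c‖ < 1) (hw : ‖w‖ < 1) :
    HasDerivAt (M c) ((1 - conj c * c) / (1 + conj c * w) ^ 2) w := by
  have hd := den_ne hc hw
  have h1 : HasDerivAt (fun w : ℂ => w + c) 1 w := (hasDerivAt_id w).add_const c
  have h2 : HasDerivAt (fun w : ℂ => 1 + conj c * w) (conj c * 1) w :=
    ((hasDerivAt_id w).const_mul (conj c)).const_add 1
  refine (h1.div h2 hd).congr_deriv ?_
  field_simp
  ring

lemma M_zero (c : ℂ) : M c 0 = c := by simp [M]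

lemma M_neg (c : ℂ) : M c (-c) = 0 := by simp [M]

lemma norm_one_sub (hc : ‖c‖ < 1) : ‖1 - conj c * c‖ = 1 - ‖c‖ ^ 2 := by
  have h1 : ‖c‖ ^ 2 < 1 := by nlinarith [norm_nonneg c]
  have : (1 - conj c * c : ℂ) = ((1 - ‖c‖ ^ 2 : ℝ) : ℂ) := by
    rw [Complex.conj_mul']; push_cast; ring
  rw [this, Complex.norm_real, Real.norm_eq_abs, abs_of_pos (by linarith)]

lemma M_comp {k : ℂ → ℂ} (hc : ‖c‖ < 1) (hk : DifferentiableOn ℂ k (ball 0 1))
    (hm : ∀ w ∈ ball (0 : ℂ) 1, ‖k w‖ < 1) : DifferentiableOn ℂ (fun w => M c (k w)) (ball 0 1) :=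
  fun w hw => (M_der hc (hm w hw)).differentiableAt.comp_differentiableWithinAt w (hk w hw)

/-- Schwarz-Pick at the origin. -/
lemma pick {k : ℂ → ℂ} (hk : DifferentiableOn ℂ k (ball 0 1))
    (hm : ∀ w ∈ ball (0 : ℂ) 1, ‖k w‖ < 1) : ‖deriv k 0‖ ≤ 1 - ‖k 0‖ ^ 2 := by
  have b0 : (0 : ℂ) ∈ ball (0 : ℂ) 1 := mem_ball_self one_pos
  have hz := hm 0 b0
  have hc : ‖-k 0‖ < 1 := by simpa using hz
  have h0 : M (-k 0) (k 0) = 0 := by simp [M]
  have h1 := Complex.norm_deriv_le_one_of_mapsTo_ball (M_comp hc hk hm)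
    (fun w hw => by
      simp only [h0, mem_closedBall, dist_zero_right]
      exact (M_lt hc (hm w hw)).le) one_pos
  have h2 := ((M_der hc hz).comp 0 (hk.differentiableAt (isOpen_ball.mem_nhds b0)).hasDerivAt).deriv
  have h3 : deriv (fun w => M (-k 0) (k w)) 0 = _ := h2
  have n1 := one_sub_ne hz
  have e : (1 - conj (-k 0) * -k 0) / (1 + conj (-k 0) * k 0) ^ 2 * deriv k 0
      = deriv k 0 / (1 - conj (k 0) * k 0) := by
    have : 1 + conj (-k 0) * k 0 = 1 - conj (k 0) * k 0 := by simp only [map_neg]; ring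
    rw [this]
    simp only [map_neg]
    field_simp
  rw [h3, e, norm_div, norm_one_sub hz, div_le_one (by nlinarith [norm_nonneg (k 0)])] at h1
  exact h1

/-- The class of maps with the lifting property. -/
def Cl (S : Finset ℂ) (R : ℝ) (a : ℂ) (ψ : ℂ → ℂ) : Prop :=
  DifferentiableOn ℂ ψ (ball 0 1) ∧ MapsTo ψ (ball 0 1) (ball 0 R) ∧ ψ 0 = a ∧
    ∀ z ∈ ball (0 : ℂ) 1, ∀ h : ℂ → ℂ, DifferentiableOn ℂ h (ball 0 1) →
      (∀ w ∈ ball (0 : ℂ) 1, ‖h w‖ < R ∧ h w ∉ S) → h 0 = ψ z →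
      ∃ k : ℂ → ℂ, DifferentiableOn ℂ k (ball 0 1) ∧ (∀ w ∈ ball (0 : ℂ) 1, ‖k w‖ < 1) ∧
        k 0 = z ∧ ∀ w ∈ ball (0 : ℂ) 1, ψ (k w) = h w

variable {S : Finset ℂ} {R : ℝ} {a : ℂ} {ψ : ℂ → ℂ}

lemma Cl.bound (H : Cl S R a ψ) {z : ℂ} (hz : z ∈ ball (0 : ℂ) 1) {h : ℂ → ℂ}
    (hh : DifferentiableOn ℂ h (ball 0 1)) (hm : ∀ w ∈ ball (0 : ℂ) 1, ‖h w‖ < R ∧ h w ∉ S)
    (h0 : h 0 = ψ z) : ‖deriv h 0‖ ≤ ‖deriv ψ z‖ * (1 - ‖z‖ ^ 2) := by
  obtain ⟨k, k1, k2, k3, k4⟩ := H.2.2.2 z hz h hh hm h0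
  have b0 : ball (0 : ℂ) 1 ∈ nhds (0 : ℂ) := isOpen_ball.mem_nhds (mem_ball_self one_pos)
  have d1 : HasDerivAt ψ (deriv ψ z) (k 0) := by
    rw [k3]; exact (H.1.differentiableAt (isOpen_ball.mem_nhds hz)).hasDerivAt
  have d2 := d1.comp 0 (k1.differentiableAt b0).hasDerivAt
  have d3 : HasDerivAt h (deriv ψ z * deriv k 0) 0 :=
    d2.congr_of_eventuallyEq (Filter.mem_of_superset b0 fun w hw => (k4 w hw).symm)
  rw [d3.deriv, norm_mul, ← k3]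
  exact mul_le_mul_of_nonneg_left (pick k1 k2) (norm_nonneg _)

lemma cl_start (S : Finset ℂ) (ha : ‖a‖ < R) : Cl S R a fun w => R * M (a / R) w := by
  have R0 : 0 < R := (norm_nonneg a).trans_lt ha
  have Rn : (R : ℂ) ≠ 0 := by exact_mod_cast R0.ne'
  have nR : ‖(R : ℂ)‖ = R := by rw [Complex.norm_real, Real.norm_eq_abs, abs_of_pos R0]
  have hc : ‖a / R‖ < 1 := by rw [norm_div, nR, div_lt_one R0]; exact ha
  refine ⟨(M_comp hc differentiableOn_id fun w hw => by simpa using hw).const_mul _,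
    fun w hw => ?_, by simp only [M_zero]; field_simp, fun z hz h hh hm h0 => ?_⟩
  · have := M_lt hc (w := w) (by simpa using hw)
    rw [mem_ball_zero_iff, norm_mul, nR]
    nlinarith
  · have q : ∀ w ∈ ball (0 : ℂ) 1, ‖h w / R‖ < 1 := fun w hw => by
      rw [norm_div, nR, div_lt_one R0]; exact (hm w hw).1
    have hc' : ‖-(a / R)‖ < 1 := by simpa using hc
    refine ⟨fun w => M (-(a / R)) (h w / R), M_comp hc' (hh.div_const _) q,
      fun w hw => M_lt hc' (q w hw), ?_, fun w hw => ?_⟩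
    · simp only [h0]
      rw [mul_div_cancel_left₀ _ Rn, M_inv hc (by simpa using hz)]
    · simp only
      rw [M_inv' hc (q w hw)]; field_simp

lemma sq_lt (hw : ‖w‖ < 1) : ‖w ^ 2‖ < 1 := by
  rw [norm_pow]; nlinarith [norm_nonneg w]

lemma cl_step (H : Cl S R a ψ) {b : ℂ} (hb : ‖b‖ < 1) (hS : ψ (-b ^ 2) ∈ S) :
    Cl S R a fun w => ψ (M (-b ^ 2) (M b w ^ 2)) := by
  have hz0 : ‖-b ^ 2‖ < 1 := by rw [norm_neg]; exact sq_lt hb
  have hb2 := sq_lt hb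
  have s1 : ∀ w ∈ ball (0 : ℂ) 1, ‖M b w ^ 2‖ < 1 := fun w hw =>
    sq_lt (M_lt hb (by simpa using hw))
  have s2 : ∀ w ∈ ball (0 : ℂ) 1, M (-b ^ 2) (M b w ^ 2) ∈ ball (0 : ℂ) 1 := fun w hw =>
    mem_ball_zero_iff.2 (M_lt hz0 (s1 w hw))
  have s3 : DifferentiableOn ℂ (fun w => M (-b ^ 2) (M b w ^ 2)) (ball 0 1) :=
    M_comp hz0 ((M_comp hb differentiableOn_id fun w hw => by simpa using hw).pow 2) s1
  refine ⟨H.1.comp s3 s2, fun w hw => H.2.1 (s2 w hw), ?_, fun z hz h hh hm h0 => ?_⟩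
  · have : M (-b ^ 2) (M b 0 ^ 2) = 0 := by rw [M_zero]; simp [M]
    simp only [this, H.2.2.1]
  obtain ⟨k, k1, k2, k3, k4⟩ := H.2.2.2 _ (s2 z hz) h hh hm h0
  have nz : ∀ w ∈ ball (0 : ℂ) 1, M (b ^ 2) (k w) ≠ 0 := fun w hw e => by
    have e1 := M_inv hb2 (k2 w hw)
    rw [e, M_zero] at e1
    exact (hm w hw).2 (by rw [← k4 w hw, ← e1]; exact hS)
  obtain ⟨l, l1, l2, l3⟩ := H60.exists_log one_pos (M_comp hb2 k1 k2) nz
  have v0 : M (b ^ 2) (k 0) = M b z ^ 2 := by rw [k3, M_inv' hb2 (s1 z hz)]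
  have q2 : ∀ w ∈ ball (0 : ℂ) 1, (M b z * Complex.exp (l w / 2)) ^ 2 = M (b ^ 2) (k w) :=
    fun w hw => by
      rw [l3 w hw, v0, mul_pow, ← Complex.exp_nat_mul]
      congr 2; push_cast; ring
  have q1 : ∀ w ∈ ball (0 : ℂ) 1, ‖M b z * Complex.exp (l w / 2)‖ < 1 := fun w hw => by
    have := M_lt hb2 (k2 w hw)
    rw [← q2 w hw, norm_pow] at this
    nlinarith [norm_nonneg (M b z * Complex.exp (l w / 2))]
  have hb' : ‖-b‖ < 1 := by simpa using hb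
  refine ⟨fun w => M (-b) (M b z * Complex.exp (l w / 2)),
    M_comp hb' (((l1.div_const 2).cexp).const_mul _) q1, fun w hw => M_lt hb' (q1 w hw), ?_,
    fun w hw => ?_⟩
  · simp only [l2, zero_div, Complex.exp_zero, mul_one]
    exact M_inv hb (by simpa using hz)
  · simp only
    rw [M_inv' hb (q1 w hw), q2 w hw, M_inv hb2 (k2 w hw), k4 w hw]

lemma step_der (H : Cl S R a ψ) {b : ℂ} (hb : ‖b‖ < 1) :
    ‖deriv (fun w => ψ (M (-b ^ 2) (M b w ^ 2))) 0‖ * (1 + ‖b‖ ^ 2) = ‖deriv ψ 0‖ * (2 * ‖b‖) := by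
  have hb2 := sq_lt hb
  have hz0 : ‖-b ^ 2‖ < 1 := by rw [norm_neg]; exact hb2
  have e0 : M (-b ^ 2) (M b 0 ^ 2) = 0 := by rw [M_zero]; simp [M]
  have d1 := (M_der hb (w := 0) (by simp)).pow 2
  have d2 := (M_der hz0 (w := M b 0 ^ 2) (by rw [M_zero]; exact hb2)).comp 0 d1
  have d3 : HasDerivAt ψ (deriv ψ 0) (M (-b ^ 2) (M b 0 ^ 2)) := by
    rw [e0]
    exact (H.1.differentiableAt (isOpen_ball.mem_nhds (mem_ball_self one_pos))).hasDerivAt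
  have d4 := (d3.comp 0 d2).deriv
  have d5 : deriv (fun w => ψ (M (-b ^ 2) (M b w ^ 2))) 0 = _ := d4
  have n1 := one_sub_ne hb2
  have e : (1 - conj (-b ^ 2) * -b ^ 2) / (1 + conj (-b ^ 2) * M b 0 ^ 2) ^ 2 *
      (((2 : ℕ) : ℂ) * M b 0 ^ (2 - 1) * ((1 - conj b * b) / (1 + conj b * 0) ^ 2))
      = 2 * b * (1 - conj b * b) / (1 - conj (b ^ 2) * b ^ 2) := by
    have : 1 + conj (-b ^ 2) * M b 0 ^ 2 = 1 - conj (b ^ 2) * b ^ 2 := by
      simp only [map_neg, M_zero]; ring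
    rw [this]
    simp only [map_neg, M_zero]
    push_cast
    field_simp
    ring
  have p : 0 < 1 - ‖b‖ ^ 2 := by nlinarith [norm_nonneg b]
  have p2 : 1 - ‖b ^ 2‖ ^ 2 = (1 - ‖b‖ ^ 2) * (1 + ‖b‖ ^ 2) := by rw [norm_pow]; ring
  rw [d5, e, norm_mul, norm_div, norm_mul, norm_mul, norm_one_sub hb, norm_one_sub hb2, p2,
    Complex.norm_ofNat]
  field_simp

theorem koebe : H4.KoebeStmt := by
  intro S R r a haS haR hr
  have b0 : (0 : ℂ) ∈ ball (0 : ℂ) 1 := mem_ball_self one_pos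
  obtain ⟨η, η0, hη⟩ : ∃ η > 0, ball a η ⊆ ball 0 R ∩ (↑S)ᶜ :=
    Metric.isOpen_iff.1 (isOpen_ball.inter S.finite_toSet.isClosed.isOpen_compl) a
      ⟨mem_ball_zero_iff.2 haR, haS⟩
  have low : ∀ ψ, Cl S R a ψ → η ≤ ‖deriv ψ 0‖ := fun ψ H => by
    have hd : ∀ w, HasDerivAt (fun w : ℂ => a + η * w) ((η : ℂ) * 1) w := fun w =>
      ((hasDerivAt_id w).const_mul (η : ℂ)).const_add a
    have := H.bound b0 (h := fun w => a + η * w)
      (fun w _ => (hd w).differentiableAt.differentiableWithinAt) (fun w hw => by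
        have : a + η * w ∈ ball a η := by
          rw [mem_ball_zero_iff] at hw
          rw [mem_ball, dist_eq_norm, add_sub_cancel_left, norm_mul, Complex.norm_real,
            Real.norm_eq_abs, abs_of_pos η0]
          nlinarith
        exact ⟨mem_ball_zero_iff.1 (hη this).1, (hη this).2⟩) (by simp [H.2.2.1])
    rw [(hd 0).deriv] at this
    simpa [abs_of_pos η0] using this
  set ρ := max r 0 with hρ
  have ρ0 : 0 ≤ ρ := le_max_right _ _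
  have ρ1 : ρ < 1 := max_lt hr one_pos
  set θ := 1 - (1 - ρ) ^ 2 / 8 with hθ
  have θ0 : 0 < θ := by rw [hθ]; nlinarith
  have θ1 : θ < 1 := by rw [hθ]; nlinarith
  let T : Set ℝ := {x | ∃ ψ, Cl S R a ψ ∧ x = ‖deriv ψ 0‖}
  have Tn : T.Nonempty := ⟨_, _, cl_start S haR, rfl⟩
  have Tb : BddBelow T := ⟨η, fun x ⟨ψ, H, e⟩ => e ▸ low ψ H⟩
  have I0 : η ≤ sInf T := le_csInf Tn fun x ⟨ψ, H, e⟩ => e ▸ low ψ H
  obtain ⟨x, ⟨ψ, H, rfl⟩, hx⟩ := exists_lt_of_csInf_lt Tn (b := sInf T / θ)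
    (by rw [lt_div_iff₀ θ0]; nlinarith)
  refine ⟨ψ, H.1, H.2.1, H.2.2.1, fun z hz hS => ?_, fun z hz h hh hm h0 => H.bound hz hh hm h0⟩
  obtain ⟨b, hb⟩ : ∃ b : ℂ, b ^ 2 = -z := IsAlgClosed.exists_pow_nat_eq (-z) two_pos
  have nb : ‖b‖ ^ 2 < ρ := by
    rw [← norm_pow, hb, norm_neg]; exact (mem_ball_zero_iff.1 hz).trans_le (le_max_left _ _)
  have t0 := norm_nonneg b
  have b1 : ‖b‖ < 1 := by nlinarith
  have H2 := cl_step H b1 (by rw [hb, neg_neg]; exact hS)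
  have h1 := csInf_le Tb ⟨_, H2, rfl⟩
  have h2 := step_der H b1
  have h3 : 2 * ‖b‖ ≤ θ * (1 + ‖b‖ ^ 2) := by
    have a1 : (1 - ρ) / 2 ≤ 1 - ‖b‖ := by nlinarith
    have a2 : ((1 - ρ) / 2) ^ 2 ≤ (1 - ‖b‖) ^ 2 := pow_le_pow_left₀ (by linarith) a1 2
    rw [hθ]
    nlinarith [sq_nonneg (1 - ρ), mul_nonneg (sq_nonneg (1 - ρ)) (by nlinarith : 0 ≤ 1 - ‖b‖ ^ 2)]
  rw [lt_div_iff₀ θ0] at hx
  have h4 : 0 < 1 + ‖b‖ ^ 2 := by positivity
  have h5 := mul_le_mul_of_nonneg_left h3 (norm_nonneg (deriv ψ 0))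
  have h6 := mul_le_mul_of_nonneg_right h1 h4.le
  nlinarith [mul_lt_mul_of_pos_right hx h4]

end Pool.Agent.MP_c69980_ag.H87
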